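import Pool.Agent.H32.QC.TargetsL

/-!
# Quadratic class field theory: the abstract index computation
-/

set_option autoImplicit false

open NumberField IsDedekindDomain Pool.Agent.H32.QC

namespace Pool.Agent.H86.QCL

theorem pf_AL : T_AL := by
  intro M _ s hs hil B hB _ _ h3
  set M2 : Subgroup M := (powMonoidHom 2 : M →* M).range with hM2
  set B2 : Subgroup M := B.map (powMonoidHom 2) with hB2
  set Nm : M →* M := MonoidHom.id M * s with hNm
  have hN : ∀ x, Nm x = x * s x := fun x => rfl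
  let phi : M →* M := MonoidHom.id M / s
  have hphi : ∀ x, phi x = x / s x := fun x => rfl
  have hker : phi.ker = B := by
    ext x
    rw [MonoidHom.mem_ker, hphi, div_eq_one, hB]
    exact eq_comm
  have hB2N : B2 = B.map Nm := by
    ext x
    simp only [hB2, Subgroup.mem_map, powMonoidHom_apply, hN]
    constructor
    · rintro ⟨y, hy, rfl⟩
      exact ⟨y, hy, by rw [(hB y).1 hy, sq]⟩
    · rintro ⟨y, hy, rfl⟩
      exact ⟨y, hy, by rw [(hB y).1 hy, sq]⟩
  have hmap : Nm.ker.map phi = M2.map phi := by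
    ext z
    simp only [Subgroup.mem_map, MonoidHom.mem_ker, hN, hM2, MonoidHom.mem_range,
      powMonoidHom_apply]
    constructor
    · rintro ⟨x, hx, rfl⟩
      obtain ⟨y, hy⟩ := hil x hx
      refine ⟨y ^ 2, ⟨y, rfl⟩, ?_⟩
      rw [map_pow, hphi y, ← hy, hphi x, (eq_inv_of_mul_eq_one_right hx : s x = x⁻¹),
        div_inv_eq_mul, sq]
    · rintro ⟨_, ⟨y, rfl⟩, rfl⟩
      have hx : (y / s y) * s (y / s y) = 1 := by
        rw [map_div, hs]
        simp
      refine ⟨y / s y, hx, ?_⟩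
      rw [map_pow, hphi y, hphi (y / s y),
        (eq_inv_of_mul_eq_one_right hx : s (y / s y) = (y / s y)⁻¹), div_inv_eq_mul, sq]
  have hsup : B ⊔ Nm.ker = B ⊔ M2 := by
    have h1 := Subgroup.comap_map_eq phi Nm.ker
    have h2 := Subgroup.comap_map_eq phi M2
    rw [hker] at h1 h2
    rw [sup_comm, ← h1, hmap, h2, sup_comm]
  have hle1 : B2 ≤ Nm.range := by
    rw [hB2N]
    exact Subgroup.map_le_range Nm B
  have hle2 : Nm.range ≤ B := by
    rintro _ ⟨x, rfl⟩
    rw [hB, hN, map_mul, hs, mul_comm]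
  have hle3 : B2 ≤ B ⊓ M2 := by
    refine le_inf (hle1.trans hle2) ?_
    exact Subgroup.map_le_range _ B
  have e1 : B2.relIndex Nm.range = (B ⊔ M2).index := by
    rw [← Subgroup.index_comap, hB2N, Subgroup.comap_map_eq, hsup]
  have e2 : B2.relIndex Nm.range * Nm.range.relIndex B = B2.relIndex B :=
    Subgroup.relIndex_mul_relIndex _ _ _ hle1 hle2
  have e3 : M2.relIndex (B ⊔ M2) * (B ⊔ M2).index = M2.index :=
    Subgroup.relIndex_mul_index le_sup_right
  have e4 : M2.relIndex (B ⊔ M2) = (B ⊓ M2).relIndex B := by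
    rw [Subgroup.relIndex_sup_right, Subgroup.inf_relIndex_left]
  have e5 : B2.relIndex (B ⊓ M2) * (B ⊓ M2).relIndex B = B2.relIndex B :=
    Subgroup.relIndex_mul_relIndex _ _ _ hle3 inf_le_left
  rw [h3] at e5
  rw [e4] at e3
  rw [e1] at e2
  rw [← e3, sq]
  calc 2 * ((B ⊓ M2).relIndex B * (B ⊔ M2).index) * Nm.range.relIndex B
      = (2 * (B ⊓ M2).relIndex B) * ((B ⊔ M2).index * Nm.range.relIndex B) := by ring
    _ = B2.relIndex B * B2.relIndex B := by rw [e5, e2]

end Pool.Agent.H86.QCL
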